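import Pool.Agent.H724R3.Main

set_option autoImplicit false

/-!
# Commutative radical Banach algebras without continuous semigroups
-/

namespace Pool.Agent.Results.MP_46f8bc_an.NoContSemigroup

open Filter Topology
open Pool.Agent.H724R3.Semi

/-- `pw a n` is the power `a ^ (n + 1)` (the algebra need not have a unit). -/
def pw {A : Type*} [Mul A] (a : A) : ℕ → A
  | 0 => a
  | n + 1 => pw a n * a

/-- Radical: every element has spectral radius `0`, that is `‖a ^ n‖ ^ (1 / n) → 0`. -/
def Radical (A : Type*) [NonUnitalNormedCommRing A] : Prop :=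
  ∀ a : A, Tendsto (fun n : ℕ => ‖pw a n‖ ^ (1 / ((n : ℝ) + 1))) atTop (𝓝 0)

/-- Finite closed descent: `a ^ n` is in the closure of `a ^ (n + 1) A` for some `n ≥ 1`. -/
def FiniteClosedDescent {A : Type*} [NonUnitalNormedCommRing A] (a : A) : Prop :=
  ∃ n : ℕ, pw a n ∈ closure (Set.range fun x : A => pw a (n + 1) * x)

/-- A norm-continuous semigroup `(a t)_{t > 0}`. -/
def ContSemigroup {A : Type*} [NonUnitalNormedCommRing A] (a : ℝ → A) : Prop :=
  (∀ s t, 0 < s → 0 < t → a (s + t) = a s * a t) ∧ ContinuousOn a (Set.Ioi 0)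

/-- powers in the underlying space -/
noncomputable def pL (a : L) : ℕ → L
  | 0 => a
  | n + 1 => B (pL a n) a

theorem pw_pL (a : R) (n : ℕ) : pw a n = pL a n := by
  induction n with
  | zero => rfl
  | succ n ih =>
    change pw a n * a = B (pL a n) a
    rw [ih]
    rfl

theorem pL_eq (a : L) (n : ℕ) : pL a n = ((B a) ^ n) a := by
  induction n with
  | zero => rfl
  | succ n ih =>
    change B (pL a n) a = _
    rw [ih, B_comm, pow_succ']
    rfl

theorem B_pL (b : L) (n : ℕ) : B (pL b n) = (B b) ^ (n + 1) := by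
  induction n with
  | zero => rw [zero_add, pow_one]; rfl
  | succ n ih =>
    have h1 : B (B (pL b n) b) = (B (pL b n)) * (B b) := by
      apply ContinuousLinearMap.ext
      intro x
      exact B_assoc _ _ _
    rw [pow_succ, ← ih, ← h1]
    rfl

theorem norm_pL_le (a : L) {K l : ℝ} (hK : ∀ n : ℕ, ‖(B a) ^ n‖ ≤ K * l ^ n) (n : ℕ) :
    ‖pL a n‖ ≤ (K * l ^ n) * ‖a‖ := by
  rw [pL_eq]
  exact (((B a) ^ n).le_opNorm a).trans (mul_le_mul_of_nonneg_right (hK n) (norm_nonneg _))

theorem radical_R : Radical R := by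
  intro a
  rw [Metric.tendsto_atTop]
  intro ε hε
  obtain ⟨K, hK0, hK⟩ := quasi a (show 0 < ε / 2 by linarith)
  set M : ℝ := K * ‖a‖ / (ε / 2) + 1 with hM
  have hM1 : 1 ≤ M := by
    have : 0 ≤ K * ‖a‖ / (ε / 2) := by positivity
    linarith
  have h1 : Tendsto (fun n : ℕ => M ^ (1 / ((n : ℝ) + 1))) atTop (𝓝 (M ^ (0 : ℝ))) :=
    ((Real.continuousAt_const_rpow (by linarith : M ≠ 0)).tendsto).comp
      tendsto_one_div_add_atTop_nhds_zero_nat
  rw [Real.rpow_zero] at h1
  obtain ⟨n0, hn0⟩ := eventually_atTop.mp (h1.eventually (gt_mem_nhds (show (1 : ℝ) < 2 by norm_num)))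
  refine ⟨n0, fun n hn => ?_⟩
  have h2 := hn0 n hn
  rw [Real.dist_eq, sub_zero, abs_of_nonneg (by positivity)]
  have h3' : ‖pw a n‖ ≤ (K * (ε / 2) ^ n) * ‖a‖ := by
    rw [pw_pL]
    exact norm_pL_le a hK n
  have h3 : ‖pw a n‖ ≤ M * (ε / 2) ^ (n + 1) := by
    refine h3'.trans ?_
    calc (K * (ε / 2) ^ n) * ‖a‖ = (K * ‖a‖ / (ε / 2)) * (ε / 2) ^ (n + 1) := by
          rw [pow_succ]
          field_simp
      _ ≤ M * (ε / 2) ^ (n + 1) := by
        apply mul_le_mul_of_nonneg_right _ (by positivity)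
        rw [hM]
        linarith
  have hn1 : (0 : ℝ) < (n : ℝ) + 1 := by positivity
  calc ‖pw a n‖ ^ (1 / ((n : ℝ) + 1)) ≤ (M * (ε / 2) ^ (n + 1)) ^ (1 / ((n : ℝ) + 1)) :=
        Real.rpow_le_rpow (norm_nonneg _) h3 (by positivity)
    _ = M ^ (1 / ((n : ℝ) + 1)) * (ε / 2) := by
        rw [Real.mul_rpow (by linarith) (by positivity), ← Real.rpow_natCast, ← Real.rpow_mul
          (by positivity)]
        push_cast
        rw [mul_one_div_cancel hn1.ne', Real.rpow_one]
    _ < 2 * (ε / 2) := mul_lt_mul_of_pos_right h2 (by linarith)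
    _ = ε := by ring

/-- There is a commutative radical complex Banach algebra `R` that contains a non-nilpotent element
of finite closed descent but no nonzero norm-continuous semigroup `(a t)_{t > 0}`. -/
theorem result : ∃ (R : Type) (_ : NonUnitalNormedCommRing R) (_ : NormedSpace ℂ R)
    (_ : IsScalarTower ℂ R R) (_ : SMulCommClass ℂ R R) (_ : CompleteSpace R),
    Radical R ∧
    (∃ b : R, (∀ n : ℕ, pw b n ≠ 0) ∧ FiniteClosedDescent b) ∧
    ∀ a : ℝ → R, ContSemigroup a → ∀ t, 0 < t → a t = 0 := by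
  refine ⟨R, inferInstance, inferInstance, inferInstance, inferInstance, inferInstance,
    radical_R, ?_, fun a ha t ht => no_semigroup a ha.2 ha.1 t ht⟩
  obtain ⟨b, hb⟩ := exists_b
  have hd : ∀ n : ℕ, DenseRange (fun x : L => ((B b) ^ n) x) := by
    intro n
    induction n with
    | zero => exact Function.Surjective.denseRange fun x => ⟨x, rfl⟩
    | succ n ih =>
      have h1 : (fun x : L => ((B b) ^ (n + 1)) x) = (fun x : L => B b x) ∘
          (fun x : L => ((B b) ^ n) x) := by
        funext x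
        rw [pow_succ']
        rfl
      rw [h1]
      exact hb.comp ih (B b).continuous
  refine ⟨b, fun n h0 => ?_, ⟨0, ?_⟩⟩
  · have h1 := hd (n + 1)
    have h0' : pL b n = 0 := (pw_pL b n).symm.trans h0
    rw [← B_pL b n, h0'] at h1
    have h2 : (fun x : L => B (0 : L) x) = fun _ => 0 := by
      funext x
      exact B_zero_left x
    have h3 : DenseRange (fun _ : L => (0 : L)) := h2 ▸ h1
    have s : S := ⟨1 / 2, by norm_num, by norm_num⟩
    have h4 := h3 (e s)
    rw [Set.range_const, closure_singleton, Set.mem_singleton_iff] at h4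
    have h5 := norm_e s
    rw [h4, norm_zero] at h5
    exact zero_ne_one h5
  · have h1 := hd 2
    rw [← B_pL b 1] at h1
    exact h1 b

end Pool.Agent.Results.MP_46f8bc_an.NoContSemigroup
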